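import Pool.Agent.Lib.HS.R.All
import Pool.Agent.Lib.HS.Fin

/-!
# MP_a54f13_nt: the first four moments of Hecke–Maass forms

For every sequence of real valued normalised Hecke–Maass cusp forms `f_i` with `t_i → ∞`, without
any hypothesis:

(1) the fourth moments on compact sets are bounded;
(2) along a subsequence there is a density `ρ ≥ 0`, `ρ²` locally integrable, such that
    `∫ ψ f_i^n → C_n ∫ ψ ρ^(n/2)` for `n = 1, 2, 3, 4` and every test function `ψ`;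
(3) the following are equivalent along the sequence: the case `n = 2` of the conjecture (quantum
    unique ergodicity, known for every sequence; it says `ρ = 1`), the case `n = 4`, the cases
    `n = 1, 2, 3, 4`, and the equidistribution of `f_i²`, in mean square over the centre of
    hyperbolic balls, at all radii `r_i → 0` with `r_i t_i → ∞`, at the radii `R / t_i` up to an
    error that is small when `R` is large, and at one choice of radii `0 < r_i ≤ t_i^(-1/2-δ)`.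
-/

set_option autoImplicit false

namespace Pool.Agent.A54.Var.FourthMoments

open MeasureTheory Filter Topology Set Pool.Agent.A54
open scoped ContDiff ComplexConjugate UpperHalfPlane MatrixGroups

theorem result (f : ℕ → ℍ → ℝ) (t : ℕ → ℝ) (hf : ∀ i, IsHeckeMaass (f i) (t i))
    (ht : Tendsto t atTop atTop) :
    (∀ D : Set ℍ, IsCompact D → ∃ C : ℝ, ∀ i, ∫ z in D, f i z ^ 4 ≤ C) ∧
    (∃ (σ : ℕ → ℕ) (ρ : ℍ → ℝ), StrictMono σ ∧ Measurable ρ ∧ (∀ z, 0 ≤ ρ z) ∧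
      (∀ D : Set ℍ, IsCompact D → IntegrableOn (fun z => ρ z ^ 2) D) ∧
      ∀ ψ : ℍ → ℝ, TestX ψ → ∀ n : ℕ, 1 ≤ n → n ≤ 4 →
        Tendsto (fun i => ∫ z in ModularGroup.fdo, ψ z * f (σ i) z ^ n) atTop
          (𝓝 (1 / √(2 * Real.pi) * (∫ x : ℝ, x ^ n * Real.exp (-x ^ 2 / 2)) *
            ∫ z in ModularGroup.fdo, ψ z * √(ρ z) ^ n))) ∧
    List.TFAE [
      (∀ ψ : ℍ → ℝ, TestX ψ →
        Tendsto (fun i => ∫ z in ModularGroup.fdo, ψ z * f i z ^ 2) atTop
          (𝓝 (∫ z in ModularGroup.fdo, ψ z))),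
      (∀ ψ : ℍ → ℝ, TestX ψ →
        Tendsto (fun i => ∫ z in ModularGroup.fdo, ψ z * f i z ^ 4) atTop
          (𝓝 (3 * ∫ z in ModularGroup.fdo, ψ z))),
      (∀ ψ : ℍ → ℝ, TestX ψ → ∀ n : ℕ, 1 ≤ n → n ≤ 4 →
        Tendsto (fun i => ∫ z in ModularGroup.fdo, ψ z * f i z ^ n) atTop
          (𝓝 (1 / √(2 * Real.pi) * (∫ x : ℝ, x ^ n * Real.exp (-x ^ 2 / 2)) *
            ∫ z in ModularGroup.fdo, ψ z))),
      (∀ K : Set ℍ, IsCompact K → ∀ r : ℕ → ℝ, (∀ i, 0 < r i) → Tendsto r atTop (𝓝 0) →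
        Tendsto (fun i => r i * t i) atTop atTop →
          Tendsto (fun i => ∫ z in K, ((⨍ w in Metric.ball z (r i), f i w ^ 2) - 1) ^ 2)
            atTop (𝓝 0)),
      (∀ K : Set ℍ, IsCompact K → ∀ ε : ℝ, 0 < ε → ∃ R : ℝ, 0 < R ∧ ∀ᶠ i in atTop,
        ∫ z in K, ((⨍ w in Metric.ball z (R / t i), f i w ^ 2) - 1) ^ 2 ≤ ε),
      (∃ (δ : ℝ) (r : ℕ → ℝ), 0 < δ ∧ (∀ i, 0 < r i ∧ r i ≤ t i ^ (-(1 / 2 + δ))) ∧
        ∀ K : Set ℍ, IsCompact K →
          Tendsto (fun i => ∫ z in K, ((⨍ w in Metric.ball z (r i), f i w ^ 2) - 1) ^ 2)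
            atTop (𝓝 0))] := by
  obtain ⟨h1, h2, h3⟩ := HR.allH HS.stmtHS f t hf ht
  exact ⟨h1, h2 id strictMono_id, h3⟩

end Pool.Agent.A54.Var.FourthMoments
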