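import Pool.Agent.Lib.HS.R.All
import Pool.Agent.Lib.MP_a54f13_nt.Hp.Dich

/-!
# MP_a54f13_nt: the first four moments along every sequence, or vanishing Hecke eigenvalues

Let `f_i` be real valued normalised Hecke–Maass cusp forms, `t_i → ∞`, with eigenvalues `λ_i(p)` of
the normalised Hecke operators.  Then one of the following holds.

* (A) Every subsequence has a further subsequence `(g_j)` with a density `ρ ≥ 0`, `ρ²` locally
  integrable, such that `∫ ψ g_j^n → C_n ∫ ψ ρ^(n/2)` for `n = 1, 2, 3, 4` and every test function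
  `ψ`.  In particular the fourth moments on compact sets are bounded, and the case `n = 2`, the
  case `n = 4` and the cases `n = 1, 2, 3, 4` of the conjecture are equivalent along the sequence.
* (B) For every `K ≥ 1` there are windows `[Y_i, Y_i^K]`, `Y_i → ∞`, `Y_i^K ≤ t_i^(1/1000)`, such
  that for infinitely many `i`, for **every** `M` in the window, fewer than `M^(1-1/10000)` of the
  primes `p ∈ (M, 2M]` have `|λ_i(p)| ≥ M^(-1/10000)`.
-/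

set_option autoImplicit false

namespace Pool.Agent.A54.Var.HeckeWindow

open MeasureTheory Filter Topology Set Pool.Agent.A54
open scoped ContDiff ComplexConjugate UpperHalfPlane MatrixGroups

theorem result (f : ℕ → ℍ → ℝ) (t : ℕ → ℝ) (l : ℕ → ℕ → ℝ)
    (hf : ∀ i, IsHeckeMaass (f i) (t i)) (ht : Tendsto t atTop atTop)
    (hl : ∀ i, ∀ p : ℕ, p.Prime → ∀ z : ℍ,
      ext (f i) ((p : ℂ) * z) + ∑ b ∈ Finset.range p, ext (f i) (((z : ℂ) + b) / p) =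
        √p * l i p * f i z) :
    ((∀ D : Set ℍ, IsCompact D → ∃ C : ℝ, ∀ i, ∫ z in D, f i z ^ 4 ≤ C) ∧
      (∀ τ : ℕ → ℕ, StrictMono τ → ∃ (σ : ℕ → ℕ) (ρ : ℍ → ℝ), StrictMono σ ∧
        Measurable ρ ∧ (∀ z, 0 ≤ ρ z) ∧
        (∀ D : Set ℍ, IsCompact D → IntegrableOn (fun z => ρ z ^ 2) D) ∧
        ∀ ψ : ℍ → ℝ, TestX ψ → ∀ n : ℕ, 1 ≤ n → n ≤ 4 →
          Tendsto (fun i => ∫ z in ModularGroup.fdo, ψ z * f (τ (σ i)) z ^ n) atTop
            (𝓝 (1 / √(2 * Real.pi) * (∫ x : ℝ, x ^ n * Real.exp (-x ^ 2 / 2)) *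
              ∫ z in ModularGroup.fdo, ψ z * √(ρ z) ^ n))) ∧
      List.TFAE [
        (∀ ψ : ℍ → ℝ, TestX ψ →
          Tendsto (fun i => ∫ z in ModularGroup.fdo, ψ z * f i z ^ 2) atTop
            (𝓝 (∫ z in ModularGroup.fdo, ψ z))),
        (∀ ψ : ℍ → ℝ, TestX ψ →
          Tendsto (fun i => ∫ z in ModularGroup.fdo, ψ z * f i z ^ 4) atTop
            (𝓝 (3 * ∫ z in ModularGroup.fdo, ψ z))),
        (∀ ψ : ℍ → ℝ, TestX ψ → ∀ n : ℕ, 1 ≤ n → n ≤ 4 →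
          Tendsto (fun i => ∫ z in ModularGroup.fdo, ψ z * f i z ^ n) atTop
            (𝓝 (1 / √(2 * Real.pi) * (∫ x : ℝ, x ^ n * Real.exp (-x ^ 2 / 2)) *
              ∫ z in ModularGroup.fdo, ψ z)))]) ∨
    ∀ K : ℝ, 1 ≤ K → ∃ Y : ℕ → ℝ, Tendsto Y atTop atTop ∧
      (∀ᶠ i in atTop, Y i ^ K ≤ t i ^ (1 / 1000 : ℝ)) ∧
      ∃ᶠ i in atTop, ∀ M : ℝ, Y i ≤ M → M ≤ Y i ^ K →
        ({p : ℕ | p.Prime ∧ M < p ∧ (p : ℝ) ≤ 2 * M ∧
          M ^ (-(1 / 10000) : ℝ) ≤ |l i p|}.ncard : ℝ) < M ^ (1 - 1 / 10000 : ℝ) := by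
  by_contra hcon
  rw [not_or] at hcon
  obtain ⟨h1, h2⟩ := hcon
  push Not at h2
  obtain ⟨K, hK, h3⟩ := h2
  apply h1
  have h0 : HR.AllA f t := by
    refine HR.allW f t l K hf ht (fun i p hp => Hp.isHk_prime hp (hl i p hp)) hK ?_
    intro Y hY hYt
    have h4 := h3 Y hY hYt
    filter_upwards [h4, hY.eventually_ge_atTop 0] with i hi hi0
    obtain ⟨M, hM1, hM2, hM3⟩ := hi
    exact ⟨M, hM1, hM2, (Hp.gdC_iff (by linarith) (l i)).2 hM3⟩
  obtain ⟨h5, h6, h7⟩ := h0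
  refine ⟨h5, h6, ?_⟩
  tfae_have 1 ↔ 2 := h7.out 0 1
  tfae_have 2 ↔ 3 := h7.out 1 2
  tfae_finish

end Pool.Agent.A54.Var.HeckeWindow
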