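import Pool.Agent.Lib.MP_a54f13_nt.Sq.Tf

/-!
# MP_a54f13_nt: the fourth moment and mass equidistribution at one scale below `t^(-1/2)`

For every sequence of real valued normalised Hecke–Maass cusp forms `f_i` with `t_i → ∞` the
following are equivalent:
(1) the cases `n = 1, 2, 3, 4` of the conjecture hold along the sequence;
(2) the cases `n = 2` and `n = 4` hold along the sequence;
(3) `f_i²` equidistributes, in mean square over the centre of hyperbolic balls, at all radii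
    `r_i → 0` with `r_i t_i → ∞`;
(4) the same at the radii `R / t_i`, up to an error that is small when `R` is large;
(5) the same at one choice of radii `0 < r_i ≤ t_i^(-1/2-δ)`, for some `δ > 0`.
-/

set_option autoImplicit false

namespace Pool.Agent.A54.Var.SquareRootScale

open MeasureTheory Filter Topology Set Pool.Agent.A54
open scoped ContDiff ComplexConjugate UpperHalfPlane MatrixGroups

theorem result (f : ℕ → ℍ → ℝ) (t : ℕ → ℝ) (hf : ∀ i, IsHeckeMaass (f i) (t i))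
    (ht : Tendsto t atTop atTop) :
    List.TFAE [
      (∀ ψ : ℍ → ℝ, TestX ψ → ∀ n : ℕ, 1 ≤ n → n ≤ 4 →
        Tendsto (fun i => ∫ z in ModularGroup.fdo, ψ z * f i z ^ n) atTop
          (𝓝 (1 / √(2 * Real.pi) * (∫ x : ℝ, x ^ n * Real.exp (-x ^ 2 / 2)) *
            ∫ z in ModularGroup.fdo, ψ z))),
      (∀ ψ : ℍ → ℝ, TestX ψ →
        Tendsto (fun i => ∫ z in ModularGroup.fdo, ψ z * f i z ^ 2) atTop
          (𝓝 (∫ z in ModularGroup.fdo, ψ z)) ∧
        Tendsto (fun i => ∫ z in ModularGroup.fdo, ψ z * f i z ^ 4) atTop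
          (𝓝 (3 * ∫ z in ModularGroup.fdo, ψ z))),
      (∀ K : Set ℍ, IsCompact K → ∀ r : ℕ → ℝ, (∀ i, 0 < r i) → Tendsto r atTop (𝓝 0) →
        Tendsto (fun i => r i * t i) atTop atTop →
          Tendsto (fun i => ∫ z in K, ((⨍ w in Metric.ball z (r i), f i w ^ 2) - 1) ^ 2)
            atTop (𝓝 0)),
      (∀ K : Set ℍ, IsCompact K → ∀ ε : ℝ, 0 < ε → ∃ R : ℝ, 0 < R ∧ ∀ᶠ i in atTop,
        ∫ z in K, ((⨍ w in Metric.ball z (R / t i), f i w ^ 2) - 1) ^ 2 ≤ ε),
      (∃ (δ : ℝ) (r : ℕ → ℝ), 0 < δ ∧ (∀ i, 0 < r i ∧ r i ≤ t i ^ (-(1 / 2 + δ))) ∧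
        ∀ K : Set ℍ, IsCompact K →
          Tendsto (fun i => ∫ z in K, ((⨍ w in Metric.ball z (r i), f i w ^ 2) - 1) ^ 2)
            atTop (𝓝 0))] :=
  Sq.tfae hf ht

end Pool.Agent.A54.Var.SquareRootScale
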