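import Pool.Agent.Lib.MP_a54f13_nt.Th.Main

/-!
# MP_a54f13_nt: the first four moments along all sequences outside a set of `O(T^(3/2+ε))` forms

For every `ε > 0` there is a set `E` of functions which contains at most `C T^(3/2+ε)` Hecke–Maass cusp forms with
`t_f ≤ T`, such that for every sequence of real valued normalised Hecke–Maass cusp forms `f_i ∉ E` with
`t_i → ∞`, every `ψ ∈ C_c^∞(X)` and `n = 1, 2, 3, 4`,
`∫_X ψ f_iⁿ dμ → C_n ∫_X ψ dμ`.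
-/

set_option autoImplicit false

namespace Pool.Agent.A54.Var.ThreeHalvesDensity

open MeasureTheory Filter Topology Set Pool.Agent.A54
open scoped ContDiff ComplexConjugate UpperHalfPlane MatrixGroups

theorem result : ∀ ε : ℝ, 0 < ε → ∃ (E : Set (ℍ → ℝ)) (C : ℝ),
    (∀ T : ℝ, 1 ≤ T → {f | f ∈ E ∧ ∃ t : ℝ, t ≤ T ∧ IsHeckeMaass f t}.Finite ∧
      ({f | f ∈ E ∧ ∃ t : ℝ, t ≤ T ∧ IsHeckeMaass f t}.ncard : ℝ) ≤ C * T ^ (3 / 2 + ε)) ∧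
    ∀ (f : ℕ → ℍ → ℝ) (t : ℕ → ℝ), (∀ i, IsHeckeMaass (f i) (t i)) → (∀ i, f i ∉ E) →
      Tendsto t atTop atTop → ∀ ψ : ℍ → ℝ, TestX ψ → ∀ n : ℕ, 1 ≤ n → n ≤ 4 →
        Tendsto (fun i => ∫ z in ModularGroup.fdo, ψ z * f i z ^ n) atTop
          (𝓝 (1 / √(2 * Real.pi) * (∫ x : ℝ, x ^ n * Real.exp (-x ^ 2 / 2)) *
            ∫ z in ModularGroup.fdo, ψ z)) :=
  Th.pFi2

end Pool.Agent.A54.Var.ThreeHalvesDensity
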